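import Pool.Agent.Helper55.PC.Events
import Pool.Agent.Helper72.PC.Tasks
import Pool.Agent.Helper9.PC.SecondMoment
import Pool.Agent.Helper13.PC.KillOfOcc

/-!
# Blocks C3, C4 of MP_cf7fa9_pr: `relax_kill`, `relax_fresh`
-/

namespace Pool.Agent.Helper55.PC

open Finset Filter
open scoped Topology ENNReal Classical

section
variable {k r L : ℕ} [NeZero k] [NeZero L] {R U : Type} [Group R] [Fintype R]
    [AddCommGroup U] [Fintype U] [DistribMulAction R U] {s q : R} {u : Idx k r → U} {W : Pat}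

namespace C3

/-- explicit formula for the lamps -/
lemma lamp_eq {ℓ : ℕ} (p0 : ZMod ℓ → ZMod 2) (c0 : ZMod ℓ) (w : ℕ → Slot) (t : ℕ) (y : ZMod ℓ) :
    lamp p0 c0 w t y = p0 y + ∑ s ∈ ((range t).filter (fun s => (w s).1 = 2)).filter
      (fun s => c0 + (cur w s : ZMod ℓ) = y), bt (w s).2 := by
  induction t with
  | zero => simp [lamp]
  | succ t ih =>
    have h1 : lamp p0 c0 w (t + 1) y = lamp p0 c0 w t y +
      if w t = (2, true) ∧ c0 + (cur w t : ZMod ℓ) = y then 1 else 0 := rfl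
    rw [h1, ih, Finset.filter_filter, Finset.filter_filter, add_assoc]
    congr 1
    rw [Finset.sum_filter, Finset.sum_filter, sum_range_succ]
    congr 1
    obtain ⟨a, b⟩ := w t
    by_cases ha : a = 2 <;> by_cases hc : c0 + (cur w t : ZMod ℓ) = y <;> cases b <;>
      simp [ha, hc, bt]

/-- lamps after rerandomising the bits of class 2 -/
lemma lamp_rs {ℓ : ℕ} (p0 : ZMod ℓ → ZMod 2) (c0 : ZMod ℓ) (w : ℕ → Slot) (η : ℕ → Bool) (t : ℕ)
    (y : ZMod ℓ) :
    lamp p0 c0 (rs 2 η w) t y = lamp p0 c0 w t y +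
      ∑ s ∈ ((range t).filter (fun s => (w s).1 = 2)).filter
      (fun s => c0 + (cur w s : ZMod ℓ) = y), bt (η s) := by
  rw [lamp_eq, lamp_eq, add_assoc, ← sum_add_distrib]
  have h2 : (2 : Fin 7) ≠ 0 := by decide
  have h3 : (2 : Fin 7) ≠ 1 := by decide
  simp only [rs_fst, cur_rs h2 h3]
  congr 1
  refine sum_congr rfl fun s hs => ?_
  have hs2 : (w s).1 = 2 := by
    have := (mem_filter.1 (mem_filter.1 hs).1).2
    exact this
  rw [← bt_xor]
  simp [rs, hs2]

lemma single_of_ne {ι M : Type} [Fintype ι] [DecidableEq ι] [AddCommGroup M]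
    (ψ : (ι → M) →+ ZMod 2) (hψ : ψ ≠ 0) : ∃ i v, ψ (Pi.single i v) ≠ 0 := by
  by_contra hcon
  push Not at hcon
  apply hψ
  refine AddMonoidHom.ext fun g => ?_
  have hg : g = ∑ i, Pi.single i (g i) := (Finset.univ_sum_single g).symm
  rw [hg, map_sum]
  simp only [AddMonoidHom.zero_apply]
  exact sum_eq_zero fun i _ => hcon i _

lemma two_le_len (k L : ℕ) [NeZero k] [NeZero L] : 2 ≤ k * (12 * L) := by
  have h1 : 1 ≤ k := Nat.one_le_iff_ne_zero.2 (NeZero.ne k)
  have h2 : 1 ≤ L := Nat.one_le_iff_ne_zero.2 (NeZero.ne L)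
  nlinarith

/-- lower bound of a probability through rerandomised bits -/
lemma Pr_ge_of_rs {t : ℕ} (T E : (ℕ → Slot) → Prop) (c : ℝ)
    (h : ∀ w, T w → c * 2 ^ t ≤ ((univ.filter (fun η : Fin t → Bool =>
      E (rs 2 (extB η) w))).card : ℝ)) : c * Pr t T ≤ Pr t E := by
  have h2 : (2 : Fin 7) ≠ 0 := by decide
  have h1 : (2 ^ t : ℝ) * Pr t E = ∑ η : Fin t → Bool, Pr t (fun w => E (rs 2 (extB η) w)) := by
    rw [sum_congr rfl (fun η _ => Pr_rs h2 (extB η) E), sum_const, card_univ]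
    simp
  have h3 : ∑ η : Fin t → Bool, Pr t (fun w => E (rs 2 (extB η) w)) =
      Ex t (fun w => ((univ.filter (fun η : Fin t → Bool => E (rs 2 (extB η) w))).card : ℝ)) := by
    unfold Pr
    rw [← Ex_sum]
    congr 1
    funext w
    rw [Finset.sum_boole]
  have h4 : (2 ^ t : ℝ) * (c * Pr t T) ≤ (2 ^ t : ℝ) * Pr t E := by
    rw [h1, h3]
    unfold Pr
    rw [← Ex_mul_left, ← Ex_mul_left]
    refine Ex_mono fun w => ?_
    by_cases hT : T w
    · simp only [hT, if_true, mul_one]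
      rw [mul_comm]
      exact h w hT
    · simp only [hT, if_false, mul_zero]
      positivity
  exact le_of_mul_le_mul_left h4 (by positivity)

end C3

open C3

theorem relax_fresh (c0 : Site k L) (φ : (Site k L → ZMod 2) →+ ZMod 2) (hφ : φ ≠ 0)
    (t0 : ℕ) (ht0 : 2 * (2 * ((k * (12 * L) : ℕ) : ℝ) ^ 2 + 28 * ((k * (12 * L) : ℕ) : ℝ)) ≤ t0) :
    Pr t0 (fun w => ¬ Fresh c0 φ t0 w) ≤ 1 / 2 := by
  have hℓ := two_le_len k L
  have hℓ' : (2 : ℝ) ≤ ((k * (12 * L) : ℕ) : ℝ) := by exact_mod_cast hℓ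
  have ht : (0 : ℝ) < t0 := lt_of_lt_of_le (by positivity) ht0
  have ht' : 0 < t0 := by exact_mod_cast ht
  obtain ⟨y, v, hv⟩ := single_of_ne φ hφ
  have hv1 : v = 1 := by
    rcases B8.zmod2_cases v with h | h
    · exfalso; apply hv; rw [h]; simp
    · exact h
  subst hv1
  have key := tasks (k * (12 * L)) hℓ c0 1 (fun _ => patE) (fun _ => y) t0 ht'
  refine le_trans (Pr_mono ?_) (le_trans key ?_)
  · intro w hw hex
    apply hw
    obtain ⟨σ, h1, h2⟩ := hex
    obtain ⟨ha, hb, hc⟩ := h1 0 (by norm_num)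
    have hn : patE.n = 1 := rfl
    refine ⟨σ 0, ?_, ?_, ?_⟩
    · rw [hn] at hc
      simp only [zero_add] at hc
      omega
    · exact hb 0 (by rw [hn]; norm_num)
    · rw [ha]; exact hv
  · rw [div_le_iff₀ ht]
    have hn : patE.n = 1 := rfl
    simp only [sum_range_one, hn, pow_one]
    linarith

theorem relax_kill (hk : 2 ≤ k) (hr : 1 ≤ r) (hrL : r ≤ L) (hG : GW s q u W) (p0 : Site k L → ZMod 2)
    (c0 : Site k L) (ρ0 : R) (ψ : (Site k L × Lbl k r → U) →+ ZMod 2) (hψ : ψ ≠ 0) (t0 : ℕ)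
    (ht0 : 2 * (r * (2 * ((k * (12 * L) : ℕ) : ℝ) ^ 2 + 28 * ((k * (12 * L) : ℕ) : ℝ)) +
      (2 * ((k * (12 * L) : ℕ) : ℝ) ^ 2 + 2 * ((k * (12 * L) : ℕ) : ℝ) * 14 ^ W.n)) ≤ t0) :
    Pr t0 (fun w => ¬ Killed s q u p0 c0 ρ0 ψ t0 w) ≤ 1 - 1 / 2 ^ (r + 1) := by
  have hℓ := two_le_len k L
  have hℓ' : (2 : ℝ) ≤ ((k * (12 * L) : ℕ) : ℝ) := by exact_mod_cast hℓ
  have ht : (0 : ℝ) < t0 := lt_of_lt_of_le (by positivity) ht0
  have ht' : 0 < t0 := by exact_mod_cast ht
  obtain ⟨⟨x, f⟩, v, hv⟩ := single_of_ne ψ hψ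
  set Wp : ℕ → Pat := fun i => if i < r then patE else W with hWp
  set y : ℕ → Site k L := fun i => if h : i < r then blk k r L x 0 ⟨i, h⟩ else x + tpt k L 1 false
    with hy
  have key := tasks (k * (12 * L)) hℓ c0 (r + 1) Wp y t0 ht'
  set T : (ℕ → Slot) → Prop := fun w => ∃ σ : ℕ → ℕ, (∀ i < r + 1,
      c0 + (cur w (σ i) : Site k L) = y i ∧
      (Wp i).occ w (σ i) ∧ σ i + (Wp i).n ≤ σ (i + 1)) ∧ σ (r + 1) ≤ t0 with hT
  have hPT : 1 / 2 ≤ Pr t0 T := by
    have h1 := Pr_not (t := t0) T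
    have h2 : Pr t0 (fun w => ¬ T w) ≤ 1 / 2 := by
      refine le_trans key ?_
      rw [div_le_iff₀ ht, sum_range_succ]
      have h3 : ∑ i ∈ range r, (2 * ((k * (12 * L) : ℕ) : ℝ) ^ 2 +
          2 * ((k * (12 * L) : ℕ) : ℝ) * 14 ^ (Wp i).n) =
          r * (2 * ((k * (12 * L) : ℕ) : ℝ) ^ 2 + 28 * ((k * (12 * L) : ℕ) : ℝ)) := by
        rw [sum_congr rfl (g := fun _ => 2 * ((k * (12 * L) : ℕ) : ℝ) ^ 2 +
          28 * ((k * (12 * L) : ℕ) : ℝ)), sum_const, card_range, nsmul_eq_mul]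
        intro i hi
        have : Wp i = patE := by simp [hWp, mem_range.1 hi]
        rw [this]
        have hn : patE.n = 1 := rfl
        rw [hn, pow_one]; ring
      have h4 : Wp r = W := by simp [hWp]
      rw [h3, h4]
      linarith
    linarith
  -- injectivity of the block sites
  have hblk : ∀ a b : Fin r, blk k r L x 0 a = blk k r L x 0 b → a = b := by
    intro a b hab
    unfold blk at hab
    have h1 := add_left_cancel hab
    simp only [ZMod.val_zero, zero_mul, zero_add] at h1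
    have h2 := (ZMod.natCast_eq_natCast_iff' _ _ _).1 h1
    have hL : L ≤ k * (12 * L) := by nlinarith [Nat.one_le_iff_ne_zero.2 (NeZero.ne k)]
    rw [Nat.mod_eq_of_lt (by omega), Nat.mod_eq_of_lt (by omega)] at h2
    exact Fin.ext h2
  have hpow : 0 < 2 ^ r := by positivity
  set zmax : Fin r → ZMod 2 := (code r).symm ⟨2 ^ r - 1, by omega⟩ with hzmax
  have hmain : ∀ w, T w → 1 / 2 ^ r * (2 : ℝ) ^ t0 ≤ ((univ.filter (fun η : Fin t0 → Bool =>
      Killed s q u p0 c0 ρ0 ψ t0 (rs 2 (extB η) w))).card : ℝ) := by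
    intro w hw
    obtain ⟨σ, hσ, hσt⟩ := hw
    have h2 : (2 : Fin 7) ≠ 0 := by decide
    have h3 : (2 : Fin 7) ≠ 1 := by decide
    obtain ⟨hr1, hr2, hr3⟩ := hσ r (by omega)
    have hyr : y r = x + tpt k L 1 false := by simp [hy]
    have hWr : Wp r = W := by simp [hWp]
    rw [hyr] at hr1
    rw [hWr] at hr2 hr3
    have hlt : ∀ d, ∀ i, i + d = r → 0 < d → σ i < σ r := by
      intro d
      induction d with
      | zero => intro i _ h; omega
      | succ d ih =>
        intro i hi _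
        obtain ⟨_, _, h5⟩ := hσ i (by omega)
        have h6 : 0 < (Wp i).n := (Wp i).pos
        rcases Nat.eq_zero_or_pos d with hd | hd
        · subst hd
          have : i + 1 = r := hi
          rw [this] at h5; omega
        · have := ih (i + 1) (by omega) hd
          omega
    set S : Finset ℕ := (range (σ r)).filter (fun s => (w s).1 = 2) with hS
    set key : ℕ → Site k L := fun s => c0 + (cur w s : Site k L) with hkey
    have hSt : S ⊆ range t0 := by
      intro a ha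
      have := mem_range.1 (mem_filter.1 ha).1
      rw [mem_range]
      omega
    set G : Finset (Site k L) := univ.image (fun a : Fin r => blk k r L x 0 a) with hGdef
    have hit : ∀ γ ∈ G, ∃ s ∈ S, key s = γ := by
      intro γ hγ
      obtain ⟨a, _, rfl⟩ := mem_image.1 hγ
      obtain ⟨h5, h6, _⟩ := hσ a (by omega)
      have hya : y a = blk k r L x 0 a := by simp [hy]
      have hWa : Wp a = patE := by simp [hWp]
      rw [hya] at h5
      rw [hWa] at h6
      have h7 : (w (σ a)).1 = 2 := h6 0 (by show 0 < 1; norm_num)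
      exact ⟨σ a, mem_filter.2 ⟨mem_range.2 (hlt (r - a) a (by omega) (by omega)), h7⟩, h5⟩
    set τ : Site k L → ZMod 2 := fun z => if h : ∃ a : Fin r, blk k r L x 0 a = z then
      zmax h.choose - f 0 h.choose - lamp p0 c0 w (σ r) z else 0 with hτ
    have hτa : ∀ a : Fin r, τ (blk k r L x 0 a) =
        zmax a - f 0 a - lamp p0 c0 w (σ r) (blk k r L x 0 a) := by
      intro a
      have hex : ∃ b : Fin r, blk k r L x 0 b = blk k r L x 0 a := ⟨a, rfl⟩
      have hch : hex.choose = a := hblk _ _ hex.choose_spec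
      simp only [hτ]
      rw [dif_pos hex, hch]
    have hcard := B8.card_A S key τ t0 hSt G hit
    have hGr : G.card ≤ r := by
      refine le_trans card_image_le ?_
      simp
    have hsub : B8.A S key τ t0 G ⊆ univ.filter (fun η : Fin t0 → Bool =>
      Killed s q u p0 c0 ρ0 ψ t0 (rs 2 (extB η) w)) := by
      intro η hη
      rw [mem_filter]
      refine ⟨mem_univ _, ?_⟩
      have hpar : ∀ γ ∈ G, B8.par S key η γ = τ γ := by
        simp only [B8.A, mem_filter, mem_univ, true_and] at hη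
        exact hη
      refine kill_of_occ hG p0 c0 ρ0 (rs 2 (extB η) w) (σ r) ?_ x f 1 false ?_ ?_ ψ v hv t0 ?_
      · intro i hi
        have h5 := hr2 i hi
        rw [rs_of_ne _ (hG.noE i hi _ h5)]
        exact h5
      · rw [cur_rs h2 h3]; exact hr1
      · have hz : labs x f (lamp p0 c0 (rs 2 (extB η) w) (σ r)) 0 = zmax := by
          funext a
          unfold labs
          rw [lamp_rs]
          have h5 : ∑ s ∈ ((range (σ r)).filter (fun s => (w s).1 = 2)).filter
              (fun s => c0 + (cur w s : Site k L) = blk k r L x 0 a), bt (extB η s) =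
              τ (blk k r L x 0 a) := by
            rw [← hpar (blk k r L x 0 a) (mem_image.2 ⟨a, mem_univ _, rfl⟩)]
            unfold B8.par
            refine sum_congr ?_ fun _ _ => rfl
            ext s
            simp only [hS, hkey, mem_filter]
          rw [h5, hτa]
          ring
        unfold badLbl
        rw [sub_self, hz, hzmax, Equiv.apply_symm_apply]
        rw [Fin.le_def]
        have := (code r (labs x f (lamp p0 c0 (rs 2 (extB η) w) (σ r)) 1)).2
        show _ ≤ 2 ^ r - 1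
        omega
      · omega
    have h8 : ((B8.A S key τ t0 G).card : ℝ) * 2 ^ G.card = 2 ^ t0 := by exact_mod_cast hcard
    calc 1 / 2 ^ r * (2 : ℝ) ^ t0 = 1 / 2 ^ r * (((B8.A S key τ t0 G).card : ℝ) * 2 ^ G.card) := by
          rw [h8]
      _ ≤ 1 / 2 ^ r * (((B8.A S key τ t0 G).card : ℝ) * 2 ^ r) := by
          gcongr
          norm_num
      _ = ((B8.A S key τ t0 G).card : ℝ) := by field_simp
      _ ≤ _ := by exact_mod_cast card_le_card hsub
  have hfin := Pr_ge_of_rs T (Killed s q u p0 c0 ρ0 ψ t0) (1 / 2 ^ r) hmain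
  rw [Pr_not]
  have h9 : 1 / 2 ^ (r + 1) ≤ Pr t0 (Killed s q u p0 c0 ρ0 ψ t0) := by
    calc (1 : ℝ) / 2 ^ (r + 1) = 1 / 2 ^ r * (1 / 2) := by rw [pow_succ]; field_simp
      _ ≤ 1 / 2 ^ r * Pr t0 T := by gcongr
      _ ≤ _ := hfin
  have h10 : Pr t0 (fun w => Killed s q u p0 c0 ρ0 ψ t0 w) = Pr t0 (Killed s q u p0 c0 ρ0 ψ t0) := rfl
  linarith

end

end Pool.Agent.Helper55.PC
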